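import Pool.Agent.Q105.Poly.Nine

/-!
# A polygonal digraph of odd order with Laplacian spread one

Definitions used (in `Pool.Agent.Q105.Poly.Defs`): `outDeg`, `inDeg`, the Laplacian `lap`, the
restricted numerical range `Wr`, the values `realValues` of the real form, restrictor matrices
`IsRestrictor`.
-/

namespace Pool.Agent.Results.MP_8a2148_co.OrderNine

open Matrix Pool.Agent.Q105.Poly

variable {n : ℕ}

/-- No loops. -/
def Loopless (A : Fin n → Fin n → Prop) : Prop := ∀ i, ¬ A i i

/-- The complement of a digraph. -/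
def compl (A : Fin n → Fin n → Prop) (i j : Fin n) : Prop := i ≠ j ∧ ¬ A i j

instance (A : Fin n → Fin n → Prop) [DecidableRel A] : DecidableRel (compl A) :=
  fun i j => inferInstanceAs (Decidable (i ≠ j ∧ ¬ A i j))

/-- All in- and out-degrees are equal to `k`. -/
def IsRegular (A : Fin n → Fin n → Prop) [DecidableRel A] (k : ℕ) : Prop :=
  ∀ i, outDeg A i = k ∧ inDeg A i = k

/-- A digraph is polygonal if its restricted numerical range is the convex hull of the eigenvalues
of `Qᴴ L Q`, where `Q` is a restrictor matrix. -/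
def Polygonal (A : Fin n → Fin n → Prop) [DecidableRel A] : Prop :=
  ∃ Q : Matrix (Fin n) (Fin (n - 1)) ℂ, IsRestrictor Q ∧
    Wr (lap A) = convexHull ℝ (spectrum ℂ (Qᴴ * (lap A).map (Int.cast : ℤ → ℂ) * Q))

/-- The Laplacian spread `β - α`. -/
noncomputable def spread (A : Fin n → Fin n → Prop) [DecidableRel A] : ℝ :=
  sSup (realValues (lap A)) - sInf (realValues (lap A))

/-- **Main result.** There is a loopless digraph of order nine which is polygonal, has Laplacian
spread one, and is not regular (nor is its complement).  Hence it is not true that every polygonal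
digraph of order `n ≥ 2` with Laplacian spread one has even order `n ≥ 4` and is, up to
complementation, `(n-2)/2`-regular. -/
theorem result :
    (∃ (A : Fin 9 → Fin 9 → Prop) (_ : DecidableRel A), Loopless A ∧ Polygonal A ∧ spread A = 1 ∧
      (∀ k, ¬ IsRegular A k) ∧ (∀ k, ¬ IsRegular (compl A) k)) ∧
    ¬ (∀ n : ℕ, 2 ≤ n → ∀ (A : Fin n → Fin n → Prop) [DecidableRel A], Loopless A → Polygonal A →
      spread A = 1 →
        Even n ∧ 4 ≤ n ∧ (IsRegular A ((n - 2) / 2) ∨ IsRegular (compl A) ((n - 2) / 2))) := by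
  have h1 : Loopless G9 := by
    intro i
    revert i
    decide +kernel
  have h2 : Polygonal G9 := by
    obtain ⟨Q, hQ⟩ := exists_restrictor 9 (by norm_num)
    refine ⟨Q, hQ, ?_⟩
    rw [lap_G9]
    exact polygonal9 Q hQ
  have h3 : spread G9 = 1 := by
    rw [spread, lap_G9, extreme9.1.csInf_eq, extreme9.2.csSup_eq]
    norm_num
  have d0 : inDeg G9 0 = 3 := by decide +kernel
  have d8 : inDeg G9 8 = 4 := by decide +kernel
  have e0 : inDeg (compl G9) 0 = 5 := by decide +kernel
  have e8 : inDeg (compl G9) 8 = 4 := by decide +kernel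
  refine ⟨⟨G9, inferInstance, h1, h2, h3, fun k hk => ?_, fun k hk => ?_⟩, fun h => ?_⟩
  · have a := (hk 0).2
    have b := (hk 8).2
    omega
  · have a := (hk 0).2
    have b := (hk 8).2
    omega
  · obtain ⟨⟨r, hr⟩, -⟩ := h 9 (by norm_num) G9 h1 h2 h3
    omega

end Pool.Agent.Results.MP_8a2148_co.OrderNine
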